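import Pool.Agent.Helper27.RV.St

/-! Module DM of project RV (MP_60edf5_lc). -/

set_option autoImplicit false

open Cardinal Ordinal Set

universe u

namespace Pool.Agent.Helper14.RV

open Pool.Agent.Helper27.RV

theorem pDM (h1 : StJOIN.{u}) (h2 : StSELF.{u}) : StDM.{u} := by
  intro K al m L J c hctx hL hJ hlarge
  classical
  have hK : Nonempty K := by
    rw [← mk_ne_zero_iff]
    exact (aleph0_pos.trans_le hctx.aleph0_le).ne'
  set B : Set L := {l | ℵ₀ < (c l).cof ∧ (c l).cof ≤ #K} with hB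
  have hg : ∀ l, ∃ g : K → Ordinal.{u}, l ∈ B → (∀ k, g k < c l) ∧ ∀ a < c l, ∃ k, a ≤ g k := by
    intro l
    by_cases hl : l ∈ B
    · have h0 : 0 < c l := by
        rw [pos_iff_ne_zero]
        intro h0
        have h3 : ℵ₀ < (c l).cof := hl.1
        rw [h0, Ordinal.cof_zero] at h3
        exact not_lt_of_ge (Cardinal.zero_le _) h3
      obtain ⟨g, hg1, hg2⟩ := enum_cof hl.2 h0
      exact ⟨g, fun _ => ⟨hg1, hg2⟩⟩
    · exact ⟨fun _ => 0, fun h => absurd h hl⟩
  choose g hg using hg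
  by_contra hns
  have hnl : ∀ q : L → K, ¬ Large K m J (fun l => g l (q l)) B := by
    intro q hq
    exact hns (h2 K m L J c (fun l => g l (q l)) B hJ hq fun l hl => (hg l hl).1 (q l))
  have hQ : #(L → K) < m := by
    rw [← Cardinal.power_def]
    exact (hctx.powL hL).trans_lt hctx.lt
  obtain ⟨ι, hι, E, hE⟩ := h1 K m L (L → K) (fun _ => J) (fun q l => g l (q l)) (fun _ => B)
    hctx.reg hQ hnl
  obtain ⟨S, hS1, hS2⟩ := hlarge ι hι E
  have hq : ∀ l, ∃ k : K, l ∈ B → ∀ n, S l n < g l k := by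
    intro l
    by_cases hl : l ∈ B
    · obtain ⟨s, hs, hs2⟩ := exists_bd_nat hl.1 (S l) (hS1 l trivial)
      obtain ⟨k, hk⟩ := (hg l hl).2 s hs
      exact ⟨k, fun _ n => (hs2 n).trans_le hk⟩
    · exact ⟨hK.some, fun h => absurd h hl⟩
  choose q hq using hq
  obtain ⟨B0, -, hB1, hB2⟩ := hE q S (fun l hl n => hq l hl n)
  exact hB2 (hS2 B0 (subset_univ _) hB1)

end Pool.Agent.Helper14.RV
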