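import Pool.Agent.Helper27.RV.StL

/-! Module SPR of project RV (MP_60edf5_lc). -/

set_option autoImplicit false

open Cardinal Ordinal Set Filter

universe u

namespace Pool.Agent.Helper14.RV

open Pool.Agent.Helper27.RV
open Pool.Agent.Helper65.GS Pool.Agent.Helper36.VC

theorem pSPR : StSPR.{u} := by
  intro X κ W hreg hunc hX hcompl hsat hnon hpos hpow L D hL hD
  classical
  by_cases hF : Nonempty (L → ℕ → D)
  swap
  · refine ⟨PEmpty, ?_, fun q => q.elim, fun v => absurd ⟨v⟩ hF⟩
    rw [mk_pempty]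
    exact aleph0_pos.trans hunc
  have hLN : #(L × ℕ) < κ := by
    rw [mk_prod, mk_nat]
    simp only [lift_aleph0, Cardinal.lift_uzero]
    exact mul_lt_of_lt hunc.le hL hunc
  have hLND : #((L × ℕ) × D) < κ := by
    rw [mk_prod, Cardinal.lift_id, Cardinal.lift_id]
    exact mul_lt_of_lt hunc.le hLN hD
  have hFk : #(L → ℕ → D) ≤ κ := by
    refine le_trans ?_ (hpow _ hLND)
    rw [← Cardinal.mk_set]
    refine Cardinal.mk_le_of_injective (f := fun f : L → ℕ → D =>
      {p : (L × ℕ) × D | f p.1.1 p.1.2 = p.2}) ?_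
    intro f g hfg
    funext l n
    have h1 : ((l, n), f l n) ∈ {p : (L × ℕ) × D | f p.1.1 p.1.2 = p.2} := rfl
    simp only at hfg
    rw [hfg] at h1
    exact h1.symm
  obtain ⟨b, -, hb⟩ := enum_set (K := X) (univ : Set (L → ℕ → D)) (by rwa [mk_univ, hX])
    ⟨hF.some, trivial⟩
  have hX' : #X = #κ.ord.ToType := by rw [hX, mk_toType, card_ord]
  obtain ⟨e⟩ := Cardinal.eq.1 hX'
  set o : X → Ordinal.{u} := fun x => ((e x).toOrd : Ordinal.{u}) with ho
  have hoinj : ∀ x y, o x = o y → x = y := fun x y h =>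
    e.injective (ToType.mk.symm.injective (Subtype.ext h))
  have hcard : ∀ x, #{y : X // o y < o x} < κ := by
    intro x
    have h1 : (o x).card < κ := Cardinal.lt_ord.1 (e x).toOrd.2
    refine lt_of_le_of_lt ?_ h1
    rw [← mk_toType]
    refine Cardinal.mk_le_of_injective (f := fun y : {y : X // o y < o x} =>
      (ToType.mk ⟨o y.1, y.2⟩ : (o x).ToType)) ?_
    intro y z hyz
    have h2 := ToType.mk.injective hyz
    have h3 : o y.1 = o z.1 := Subtype.mk.inj h2
    exact Subtype.ext (hoinj _ _ h3)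
  by_contra hcon
  have hv : ∀ x, ∃ v : L → ℕ → D, ∀ y, o y < o x → ¬ ∀ l n, ∃ n', v l n = b y l n' := by
    intro x
    by_contra hx
    push Not at hx
    apply hcon
    refine ⟨{y : X // o y < o x}, hcard x, fun y => b y.1, fun v => ?_⟩
    obtain ⟨y, hy, hy2⟩ := hx v
    exact ⟨⟨y, hy⟩, hy2⟩
  choose v hv using hv
  set C : L → ℕ → Set D := fun l n => {d | Pos W {x | v x l n = d}} with hC
  have hCc : ∀ l n, (C l n).Countable := by
    intro l n
    have h1 : ((fun d => {x | v x l n = d}) '' (C l n)).Countable := by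
      apply hsat
      · rintro _ ⟨d, hd, rfl⟩
        exact hd
      · rintro _ ⟨d, hd, rfl⟩ _ ⟨d', hd', rfl⟩ hne hp
        obtain ⟨x, hx1, hx2⟩ := hp.nonempty
        apply hne
        have h2 : d = d' := by
          rw [← (hx1 : v x l n = d)]
          exact hx2
        rw [h2]
    refine Set.countable_of_injective_of_countable_image ?_ h1
    intro d hd d' hd' hdd
    obtain ⟨x, hx⟩ := (hd : Pos W {x | v x l n = d}).nonempty
    have h2 : x ∈ {x | v x l n = d'} := by
      have h3 : {x | v x l n = d} = {x | v x l n = d'} := hdd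
      rw [← h3]
      exact hx
    exact (hx : v x l n = d).symm.trans h2
  have hae : ∀ᶠ x in W, ∀ p : L × ℕ, v x p.1 p.2 ∈ C p.1 p.2 := by
    refine (eventually_cardinal_forall hLN).2 fun p => ?_
    have h1 : ∀ᶠ x in W, ∀ d : D, d ∉ C p.1 p.2 → v x p.1 p.2 ≠ d := by
      refine (eventually_cardinal_forall hD).2 fun d => ?_
      by_cases hd : d ∈ C p.1 p.2
      · exact Eventually.of_forall fun x h => absurd hd h
      · filter_upwards [not_pos.1 hd] with x hx _
        exact hx
    filter_upwards [h1] with x hx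
    by_contra hne
    exact hx _ hne rfl
  have hex : ∀ {p : X → Prop}, (∀ᶠ x in W, p x) → ∃ x, p x := by
    intro p hp
    by_contra hno
    push Not at hno
    apply hpos
    rw [compl_univ]
    filter_upwards [hp] with x hx
    exact hno x hx
  obtain ⟨x0, hx0⟩ := hex hae
  have hB : ∀ l, ∃ f : ℕ → D, (⋃ n, C l n) = range f := by
    intro l
    exact (countable_iUnion (hCc l)).exists_eq_range ⟨v x0 l 0, mem_iUnion.2 ⟨0, hx0 (l, 0)⟩⟩
  choose Bf hBf using hB
  obtain ⟨y, hy⟩ := hb Bf trivial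
  have h2 : ∀ᶠ x in W, ∀ z : {z : X // o z < o y}, x ≠ z.1 :=
    (eventually_cardinal_forall (hcard y)).2 fun z => hnon z.1
  have h3 : ∀ᶠ x in W, x ≠ y := hnon y
  obtain ⟨x, hx1, hx2, hx3⟩ := hex (hae.and (h2.and h3))
  have hlt : o y < o x := by
    rcases lt_trichotomy (o y) (o x) with h | h | h
    · exact h
    · exact absurd (hoinj _ _ h).symm hx3
    · exact absurd rfl (hx2 ⟨x, h⟩)
  apply hv x y hlt
  intro l n
  have h4 : v x l n ∈ range (Bf l) := by
    rw [← hBf l]
    exact mem_iUnion.2 ⟨n, hx1 (l, n)⟩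
  obtain ⟨n', hn'⟩ := h4
  refine ⟨n', ?_⟩
  rw [hy, hn']

end Pool.Agent.Helper14.RV
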